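import Mathlib

namespace Q258.Slir

open Finset Classical

variable {V : Type*} [Fintype V]

/-- number of vertices with a property -/
noncomputable def cnt (p : V → Prop) : ℕ := (Finset.univ.filter p).card

theorem cnt_mono {p q : V → Prop} (h : ∀ v, p v → q v) : cnt p ≤ cnt q := by
  unfold cnt
  apply Finset.card_le_card
  intro v
  simp only [Finset.mem_filter, Finset.mem_univ, true_and]
  exact h v

theorem cnt_congr {p q : V → Prop} (h : ∀ v, p v ↔ q v) : cnt p = cnt q :=
  le_antisymm (cnt_mono fun v => (h v).1) (cnt_mono fun v => (h v).2)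

theorem cnt_split (p q : V → Prop) :
    cnt p = cnt (fun v => p v ∧ q v) + cnt (fun v => p v ∧ ¬ q v) := by
  unfold cnt
  have h := Finset.card_filter_add_card_filter_not (s := Finset.univ.filter p) q
  rw [Finset.filter_filter, Finset.filter_filter] at h
  rw [← h]
  congr!

theorem cnt_or {p q : V → Prop} (h : ∀ v, p v → ¬ q v) :
    cnt (fun v => p v ∨ q v) = cnt p + cnt q := by
  rw [cnt_split (fun v => p v ∨ q v) p]
  congr 1
  · exact cnt_congr fun v => by tauto
  · refine cnt_congr fun v => ?_
    have := h v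
    tauto

theorem cnt_pos {p : V → Prop} {v : V} (h : p v) : 1 ≤ cnt p := by
  unfold cnt
  apply Finset.card_pos.2
  exact ⟨v, by simp [h]⟩

theorem cnt_zero {p : V → Prop} (h : ∀ v, ¬ p v) : cnt p = 0 := by
  unfold cnt
  rw [Finset.card_eq_zero]
  ext v
  simp [h v]

/-- out-degree, in-degree and balanced degree in a relation -/
noncomputable def outd (R : V → V → Prop) (v : V) : ℕ := cnt (fun w => R v w)
noncomputable def ind (R : V → V → Prop) (v : V) : ℕ := cnt (fun u => R u v)
noncomputable def bal (R : V → V → Prop) (v : V) : ℤ := (outd R v : ℤ) - ind R v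

/-- strong local irregularity -/
def Irr (R : V → V → Prop) : Prop := ∀ u v, R u v → bal R u ≠ bal R v

/-- the arcs can be coloured with colours in `C` -/
def Dec (C : Type*) (R : V → V → Prop) : Prop :=
  ∃ c : V → V → C, ∀ i, Irr (fun u v => R u v ∧ c u v = i)

theorem irr_congr {R R' : V → V → Prop} (h : ∀ u v, R u v ↔ R' u v) (hR : Irr R) :
    Irr R' := by
  have : R = R' := by
    funext u v
    exact propext (h u v)
  rwa [← this]

theorem dec_union {C C' : Type*} {R : V → V → Prop} (Q : V → V → Prop)
    (h1 : Dec C (fun u v => R u v ∧ Q u v)) (h2 : Dec C' (fun u v => R u v ∧ ¬ Q u v)) :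
    Dec (C ⊕ C') R := by
  obtain ⟨c, hc⟩ := h1
  obtain ⟨c', hc'⟩ := h2
  refine ⟨fun u v => if Q u v then Sum.inl (c u v) else Sum.inr (c' u v), ?_⟩
  rintro (i | i)
  · refine irr_congr ?_ (hc i)
    intro u v
    by_cases h : Q u v <;> simp [h]
  · refine irr_congr ?_ (hc' i)
    intro u v
    by_cases h : Q u v <;> simp [h]

theorem bal_flip (R : V → V → Prop) (v : V) : bal (fun a b => R b a) v = - bal R v := by
  unfold bal outd ind
  ring

theorem irr_flip {R : V → V → Prop} (h : Irr (fun a b => R b a)) : Irr R := by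
  intro u v huv
  have := h v u huv
  rw [bal_flip R, bal_flip R] at this
  intro h'
  exact this (by rw [h'])

theorem dec_flip {C : Type*} {R : V → V → Prop} (h : Dec C (fun a b => R b a)) : Dec C R := by
  obtain ⟨c, hc⟩ := h
  refine ⟨fun u v => c v u, fun i => ?_⟩
  apply irr_flip
  exact hc i

theorem irr_dicut {R : V → V → Prop} (A : V → Prop) (h : ∀ u v, R u v → A u ∧ ¬ A v) :
    Irr R := by
  intro u v huv
  have hu := (h u v huv).1
  have hv := (h u v huv).2
  have h1 : 1 ≤ outd R u := cnt_pos (p := fun w => R u w) huv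
  have h2 : ind R u = 0 := cnt_zero fun w hw => (h w u hw).2 hu
  have h3 : 1 ≤ ind R v := cnt_pos (p := fun w => R w v) huv
  have h4 : outd R v = 0 := cnt_zero fun w hw => hv (h v w hw).1
  unfold bal
  omega

theorem dec_dicuts {J : Type*} [Nonempty J] {R : V → V → Prop} (A : J → V → Prop)
    (h : ∀ u v, R u v → ∃ j, A j u ∧ ¬ A j v) : Dec J R := by
  refine ⟨fun u v => if h' : R u v then (h u v h').choose else Classical.arbitrary J, ?_⟩
  intro j
  apply irr_dicut (A j)
  rintro u v ⟨huv, hj⟩
  simp only [dif_pos huv] at hj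
  rw [← hj]
  exact (h u v huv).choose_spec

/-- greedy choices along a rank function -/
theorem exists_greedy {X : Type*} [Nonempty X] (f : V → ℕ) (Good : V → (V → X) → X → Prop)
    (hloc : ∀ v g g' x, (∀ u, f u < f v → g u = g' u) → Good v g x → Good v g' x)
    (hex : ∀ v g, ∃ x, Good v g x) : ∃ g, ∀ v, Good v g (g v) := by
  have key : ∀ n, ∃ g, ∀ v, f v < n → Good v g (g v) := by
    intro n
    induction n with
    | zero => exact ⟨fun _ => Classical.arbitrary X, fun v hv => absurd hv (by omega)⟩
    | succ n ih =>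
      obtain ⟨g, hg⟩ := ih
      refine ⟨fun v => if f v < n then g v else (hex v g).choose, ?_⟩
      intro v hv
      by_cases h : f v < n
      · simp only [h, if_true]
        refine hloc v g _ _ ?_ (hg v h)
        intro u hu
        have : f u < n := by omega
        simp [this]
      · simp only [h, if_false]
        refine hloc v g _ _ ?_ (hex v g).choose_spec
        intro u hu
        have : f u < n := by omega
        simp [this]
  obtain ⟨g, hg⟩ := key (Finset.univ.sup f + 1)
  refine ⟨g, fun v => hg v ?_⟩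
  have : f v ≤ Finset.univ.sup f := Finset.le_sup (Finset.mem_univ v)
  omega

theorem exists_minority (f : V → ℕ) (E : V → V → Prop) (hE : ∀ u v, E u v → f u < f v) :
    ∃ α : V → Bool, ∀ v, cnt (fun u => E u v ∧ α u = α v) ≤ cnt (fun u => E u v ∧ ¬ α u = α v) := by
  apply exists_greedy f (fun v g x => cnt (fun u => E u v ∧ g u = x) ≤
    cnt (fun u => E u v ∧ ¬ g u = x))
  · intro v g g' x h h'
    rw [cnt_congr (q := fun u => E u v ∧ g u = x), cnt_congr (p := fun u => E u v ∧ ¬ g' u = x)
      (q := fun u => E u v ∧ ¬ g u = x)]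
    · exact h'
    · intro u
      constructor
      · rintro ⟨h1, h2⟩
        exact ⟨h1, by rw [h u (hE u v h1)]; exact h2⟩
      · rintro ⟨h1, h2⟩
        exact ⟨h1, by rw [← h u (hE u v h1)]; exact h2⟩
    · intro u
      constructor
      · rintro ⟨h1, h2⟩
        exact ⟨h1, by rw [h u (hE u v h1)]; exact h2⟩
      · rintro ⟨h1, h2⟩
        exact ⟨h1, by rw [← h u (hE u v h1)]; exact h2⟩
  · intro v g
    by_cases h : cnt (fun u => E u v ∧ g u = true) ≤ cnt (fun u => E u v ∧ ¬ g u = true)
    · exact ⟨true, h⟩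
    · refine ⟨false, ?_⟩
      have h1 : cnt (fun u => E u v ∧ g u = false) = cnt (fun u => E u v ∧ ¬ g u = true) :=
        cnt_congr fun u => by simp
      have h2 : cnt (fun u => E u v ∧ ¬ g u = false) = cnt (fun u => E u v ∧ g u = true) :=
        cnt_congr fun u => by simp
      rw [h1, h2]
      omega

theorem exists_list (f : V → ℕ) (E : V → V → Prop) (hE : ∀ u v, E u v → f u < f v)
    (lo : V → ℤ) :
    ∃ s : V → ℤ, ∀ v, lo v ≤ s v ∧ s v ≤ lo v + cnt (fun u => E u v) ∧
      ∀ u, E u v → s u ≠ s v := by
  apply exists_greedy f (fun v g x => lo v ≤ x ∧ x ≤ lo v + cnt (fun u => E u v) ∧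
      ∀ u, E u v → g u ≠ x)
  · rintro v g g' x h ⟨h1, h2, h3⟩
    refine ⟨h1, h2, fun u hu => ?_⟩
    rw [← h u (hE u v hu)]
    exact h3 u hu
  · intro v g
    have h1 : ((Finset.univ.filter (fun u => E u v)).image g).card <
        (Finset.Icc (lo v) (lo v + cnt (fun u => E u v))).card := by
      rw [Int.card_Icc]
      have : ((Finset.univ.filter (fun u => E u v)).image g).card ≤ cnt (fun u => E u v) :=
        Finset.card_image_le
      omega
    obtain ⟨x, hx, hx'⟩ := Finset.exists_mem_notMem_of_card_lt_card h1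
    rw [Finset.mem_Icc] at hx
    refine ⟨x, hx.1, hx.2, fun u hu h => hx' ?_⟩
    rw [Finset.mem_image]
    exact ⟨u, by simp [hu], h⟩

/-- the adjusting lemma -/
theorem adjust (K : V → Prop) (R1 S : V → V → Prop) (hR1 : ∀ u v, R1 u v → K u)
    (hS : ∀ u v, S u v → K u ∧ ¬ K v) (hd : ∀ u v, R1 u v → ¬ S u v) (s : V → ℤ)
    (h0 : ∀ v, K v → 0 ≤ s v) (hlo : ∀ v, K v → bal R1 v ≤ s v)
    (hhi : ∀ v, K v → s v ≤ bal R1 v + outd S v)
    (hne : ∀ u v, R1 u v → K v → s u ≠ s v) :
    ∃ S' : V → V → Prop, (∀ u v, S' u v → S u v) ∧ Irr (fun u v => R1 u v ∨ S' u v) := by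
  have hch : ∀ v, ∃ t : Finset V, t ⊆ Finset.univ.filter (fun w => S v w) ∧
      (K v → (t.card : ℤ) = s v - bal R1 v) := by
    intro v
    by_cases hv : K v
    · have h1 : (s v - bal R1 v).toNat ≤ (Finset.univ.filter (fun w => S v w)).card := by
        have := hhi v hv
        unfold outd cnt at this
        omega
      obtain ⟨t, ht, ht'⟩ := Finset.exists_subset_card_eq h1
      refine ⟨t, ht, fun _ => ?_⟩
      have := hlo v hv
      omega
    · exact ⟨∅, by simp, fun h => absurd h hv⟩
  choose t ht ht' using hch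
  have hsub : ∀ u v, v ∈ t u → S u v := by
    intro u v h
    have := ht u h
    simpa using this
  refine ⟨fun u v => v ∈ t u, hsub, ?_⟩
  set T : V → V → Prop := fun u v => R1 u v ∨ v ∈ t u with hT
  have hbal : ∀ v, K v → bal T v = s v := by
    intro v hv
    have h1 : outd T v = outd R1 v + (t v).card := by
      unfold outd
      rw [hT]
      simp only
      rw [cnt_or]
      · congr 1
        unfold cnt
        congr 1
        ext w
        simp
      · intro w hw hw'
        exact hd v w hw (hsub v w hw')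
    have h2 : ind T v = ind R1 v := by
      unfold ind
      apply cnt_congr
      intro w
      constructor
      · rintro (h | h)
        · exact h
        · exact absurd hv (hS _ _ (hsub _ _ h)).2
      · exact Or.inl
    have h3 := ht' v hv
    unfold bal at h3 ⊢
    omega
  have hTK : ∀ u v, T u v → K u := by
    rintro u v (h | h)
    · exact hR1 u v h
    · exact (hS _ _ (hsub _ _ h)).1
  intro u v huv
  have hu := hTK u v huv
  by_cases hv : K v
  · rw [hbal u hu, hbal v hv]
    rcases huv with h | h
    · exact hne u v h hv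
    · exact absurd hv (hS _ _ (hsub _ _ h)).2
  · rw [hbal u hu]
    have h1 := h0 u hu
    have h2 : outd T v = 0 := cnt_zero fun w hw => hv (hTK v w hw)
    have h3 : 1 ≤ ind T v := cnt_pos (p := fun w => T w v) huv
    unfold bal
    omega

end Q258.Slir
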