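import Pool.Agent.Q258.Slir.Side

namespace Q258.Slir

open Finset Classical

variable {V : Type*} [Fintype V]

/-- the arcs from `P` to its complement can be shared between their endpoints -/
theorem sharing (P : V → Prop) (E : V → V → Prop) (hE : ∀ u v, E u v → P u ∧ ¬ P v) :
    ∃ O : V → V → Prop,
      (∀ v, P v → cnt (fun w => E v w) ≤ 2 * cnt (fun w => E v w ∧ O v w) + 1) ∧
      (∀ w, ¬ P w → cnt (fun v => E v w) ≤ 2 * cnt (fun v => E v w ∧ ¬ O v w) + 1) := by
  set A : V → Finset (V × V) := fun x =>
    Finset.univ.filter (fun e : V × V => E e.1 e.2 ∧ (e.1 = x ∨ e.2 = x)) with hA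
  have hall : ∀ s : Finset ((x : V) × Fin ((A x).card / 2)),
      s.card ≤ (s.biUnion (fun i => A i.1)).card := by
    intro s
    set X : Finset V := s.image Sigma.fst with hX
    set U : Finset (V × V) := s.biUnion (fun i => A i.1) with hU
    have h1 : s.card ≤ ∑ x ∈ X, (A x).card / 2 := by
      rw [Finset.card_eq_sum_card_image Sigma.fst s]
      apply Finset.sum_le_sum
      intro x _
      have : (s.filter (fun i => i.1 = x)).card ≤
          ((Finset.univ : Finset (Fin ((A x).card / 2))).image
            (fun j => (⟨x, j⟩ : (x : V) × Fin ((A x).card / 2)))).card := by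
        apply Finset.card_le_card
        intro i hi
        rw [Finset.mem_filter] at hi
        obtain ⟨y, j⟩ := i
        obtain ⟨_, rfl⟩ := hi
        simp
      refine this.trans (Finset.card_image_le.trans ?_)
      simp
    have h2 : ∑ x ∈ X, (A x).card ≤ 2 * U.card := by
      have h3 : ∀ x ∈ X, (A x).card = ∑ e ∈ U, if (e.1 = x ∨ e.2 = x) then 1 else 0 := by
        intro x hx
        rw [← Finset.card_filter]
        congr 1
        ext e
        simp only [hA, hU, Finset.mem_filter, Finset.mem_univ, true_and, Finset.mem_biUnion]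
        constructor
        · rintro ⟨g1, g2⟩
          rw [hX, Finset.mem_image] at hx
          obtain ⟨i, hi, rfl⟩ := hx
          exact ⟨⟨i, hi, g1, g2⟩, g2⟩
        · rintro ⟨⟨i, hi, g1, g2⟩, g3⟩
          exact ⟨g1, g3⟩
      rw [Finset.sum_congr rfl h3, Finset.sum_comm]
      have h4 : ∀ e ∈ U, (∑ x ∈ X, if (e.1 = x ∨ e.2 = x) then 1 else 0) ≤ 2 := by
        intro e _
        rw [← Finset.card_filter]
        have : X.filter (fun x => e.1 = x ∨ e.2 = x) ⊆ {e.1, e.2} := by
          intro x hx
          rw [Finset.mem_filter] at hx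
          rcases hx.2 with h | h
          · simp [h]
          · simp [h]
        exact (Finset.card_le_card this).trans Finset.card_le_two
      refine (Finset.sum_le_sum h4).trans ?_
      rw [Finset.sum_const, smul_eq_mul, mul_comm]
    have h5 : 2 * ∑ x ∈ X, (A x).card / 2 ≤ ∑ x ∈ X, (A x).card := by
      rw [Finset.mul_sum]
      apply Finset.sum_le_sum
      intro x _
      omega
    omega
  obtain ⟨F, hF, hF'⟩ := (Finset.all_card_le_biUnion_card_iff_exists_injective
    (fun i : (x : V) × Fin ((A x).card / 2) => A i.1)).1 hall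
  refine ⟨fun u v => ∃ j : Fin ((A u).card / 2), F ⟨u, j⟩ = (u, v), ?_, ?_⟩
  · intro v hv
    have h1 : cnt (fun w => E v w) = (A v).card := by
      unfold cnt
      apply Finset.card_bij (fun w _ => (v, w))
      · intro w hw
        simp only [Finset.mem_filter, Finset.mem_univ, true_and] at hw
        simp [hA, hw]
      · intro w _ w' _ h
        exact (Prod.mk.inj h).2
      · rintro ⟨a, b⟩ hab
        simp only [hA, Finset.mem_filter, Finset.mem_univ, true_and] at hab
        rcases hab.2 with h | h
        · subst h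
          exact ⟨b, by simp [hab.1], rfl⟩
        · subst h
          exact absurd hv (hE _ _ hab.1).2
    show cnt (fun w => E v w) ≤ 2 * cnt (fun w => E v w ∧
        ∃ j : Fin ((A v).card / 2), F ⟨v, j⟩ = (v, w)) + 1
    have h2 : (A v).card / 2 ≤ cnt (fun w => E v w ∧
        ∃ j : Fin ((A v).card / 2), F ⟨v, j⟩ = (v, w)) := by
      have h3 : ((Finset.univ : Finset (Fin ((A v).card / 2))).image
          (fun j => (F ⟨v, j⟩).2)).card = (A v).card / 2 := by
        rw [Finset.card_image_of_injective, Finset.card_univ, Fintype.card_fin]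
        intro j j' h
        have g : ∀ j : Fin ((A v).card / 2), (F ⟨v, j⟩).1 = v := by
          intro j
          have := hF' ⟨v, j⟩
          simp only [hA, Finset.mem_filter, Finset.mem_univ, true_and] at this
          rcases this.2 with h | h
          · exact h
          · exact absurd hv (h ▸ (hE _ _ this.1).2)
        have : F ⟨v, j⟩ = F ⟨v, j'⟩ := Prod.ext ((g j).trans (g j').symm) h
        have := hF this
        simpa using this
      refine h3.symm.le.trans ?_
      unfold cnt
      apply Finset.card_le_card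
      intro w hw
      rw [Finset.mem_image] at hw
      obtain ⟨j, _, rfl⟩ := hw
      have := hF' ⟨v, j⟩
      simp only [hA, Finset.mem_filter, Finset.mem_univ, true_and] at this
      have g : (F ⟨v, j⟩).1 = v := by
        rcases this.2 with h | h
        · exact h
        · exact absurd hv (h ▸ (hE _ _ this.1).2)
      simp only [Finset.mem_filter, Finset.mem_univ, true_and]
      refine ⟨?_, j, ?_⟩
      · have g2 := this.1
        rwa [g] at g2
      · exact Prod.ext g rfl
    omega
  · intro v hv
    have h1 : cnt (fun w => E w v) = (A v).card := by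
      unfold cnt
      apply Finset.card_bij (fun w _ => (w, v))
      · intro w hw
        simp only [Finset.mem_filter, Finset.mem_univ, true_and] at hw
        simp [hA, hw]
      · intro w _ w' _ h
        exact (Prod.mk.inj h).1
      · rintro ⟨a, b⟩ hab
        simp only [hA, Finset.mem_filter, Finset.mem_univ, true_and] at hab
        rcases hab.2 with h | h
        · subst h
          exact absurd (hE _ _ hab.1).1 hv
        · subst h
          exact ⟨a, by simp [hab.1], rfl⟩
    have g : ∀ j : Fin ((A v).card / 2), (F ⟨v, j⟩).2 = v ∧ E (F ⟨v, j⟩).1 v := by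
      intro j
      have := hF' ⟨v, j⟩
      simp only [hA, Finset.mem_filter, Finset.mem_univ, true_and] at this
      rcases this.2 with h | h
      · exact absurd (h ▸ (hE _ _ this.1).1) hv
      · exact ⟨h, by have g2 := this.1; rwa [h] at g2⟩
    show cnt (fun w => E w v) ≤ 2 * cnt (fun w => E w v ∧
        ¬ ∃ j : Fin ((A w).card / 2), F ⟨w, j⟩ = (w, v)) + 1
    have h2 : (A v).card / 2 ≤ cnt (fun w => E w v ∧
        ¬ ∃ j : Fin ((A w).card / 2), F ⟨w, j⟩ = (w, v)) := by
      have h3 : ((Finset.univ : Finset (Fin ((A v).card / 2))).image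
          (fun j => (F ⟨v, j⟩).1)).card = (A v).card / 2 := by
        rw [Finset.card_image_of_injective, Finset.card_univ, Fintype.card_fin]
        intro j j' h
        have : F ⟨v, j⟩ = F ⟨v, j'⟩ := Prod.ext h ((g j).1.trans (g j').1.symm)
        have := hF this
        simpa using this
      refine h3.symm.le.trans ?_
      unfold cnt
      apply Finset.card_le_card
      intro w hw
      rw [Finset.mem_image] at hw
      obtain ⟨j, _, rfl⟩ := hw
      simp only [Finset.mem_filter, Finset.mem_univ, true_and]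
      refine ⟨(g j).2, ?_⟩
      rintro ⟨j', hj'⟩
      have h4 : F ⟨(F ⟨v, j⟩).1, j'⟩ = F ⟨v, j⟩ := by
        rw [hj']
        exact Prod.ext rfl (g j).1.symm
      have h5 := hF h4
      have h6 : (F ⟨v, j⟩).1 = v := congrArg Sigma.fst h5
      have h7 := (hE _ _ (g j).2).1
      rw [h6] at h7
      exact hv h7
    omega

/-- acyclic digraphs -/
theorem acyclic (f f' : V → ℕ) (R : V → V → Prop)
    (hf : ∀ u v, R u v → f u < f v) (hf' : ∀ u v, R u v → f' v < f' u) :
    Dec (Unit ⊕ (((Bool × Bool × Bool) ⊕ Fin 6) ⊕ ((Bool × Bool × Bool) ⊕ Fin 6))) R := by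
  set P : V → Prop := fun v => ind R v ≤ outd R v with hP
  obtain ⟨O, hO1, hO2⟩ := sharing P (fun u v => R u v ∧ P u ∧ ¬ P v) (fun u v h => h.2)
  apply dec_union (fun u v => ¬ P u ∧ P v)
  · exact dec_dicuts (J := Unit) (fun _ v => ¬ P v)
      (fun u v h => ⟨(), h.2.1, fun h' => h' h.2.2⟩)
  apply dec_union (fun u v => P u ∧ (P v ∨ (¬ P v ∧ O u v)))
  · apply side f f' _ P
    · exact fun u v h => hf u v h.1.1
    · exact fun u v h => hf' u v h.1.1
    · exact fun u v h => h.2.1
    · intro v hv
      have h1 : cnt (fun u => P u ∧ (R u v ∧ ¬ (¬ P u ∧ P v)) ∧ P u ∧ (P v ∨ (¬ P v ∧ O u v)))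
          ≤ ind R v := cnt_mono fun u hu => hu.2.1.1
      have h2 := cnt_split (fun w => R v w) P
      have h3 := hO1 v hv
      have h4 : cnt (fun w => R v w ∧ ¬ P w) = cnt (fun w => R v w ∧ P v ∧ ¬ P w) :=
        cnt_congr fun w => by tauto
      have h5 : cnt (fun w => (R v w ∧ P v ∧ ¬ P w) ∧ O v w) =
          cnt (fun w => ¬ P w ∧ (R v w ∧ ¬ (¬ P v ∧ P w)) ∧ P v ∧ (P w ∨ (¬ P w ∧ O v w))) :=
        cnt_congr fun w => by tauto
      have h6 : cnt (fun w => R v w ∧ P w) =
          cnt (fun w => P w ∧ (R v w ∧ ¬ (¬ P v ∧ P w)) ∧ P v ∧ (P w ∨ (¬ P w ∧ O v w))) :=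
        cnt_congr fun w => by tauto
      have h7 : ind R v ≤ outd R v := hv
      have h8 : outd R v = cnt (fun w => R v w) := rfl
      omega
  · apply dec_flip
    apply side f' f _ (fun v => ¬ P v)
    · exact fun u v h => hf' v u h.1.1
    · exact fun u v h => hf v u h.1.1
    · intro u v h hu
      have h1 := h.1.2
      have h2 := h.2
      by_cases hv : P v
      · exact h2 ⟨hv, Or.inl hu⟩
      · exact h1 ⟨hv, hu⟩
    · intro v hv
      have h1 : cnt (fun u => ¬ P u ∧ (R v u ∧ ¬ (¬ P v ∧ P u)) ∧
          ¬ (P v ∧ (P u ∨ (¬ P u ∧ O v u)))) ≤ outd R v := cnt_mono fun u hu => hu.2.1.1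
      have h2 := cnt_split (fun w => R w v) P
      have h3 := hO2 v hv
      have h4 : cnt (fun w => R w v ∧ P w) = cnt (fun w => R w v ∧ P w ∧ ¬ P v) :=
        cnt_congr fun w => by tauto
      have h5 : cnt (fun w => (R w v ∧ P w ∧ ¬ P v) ∧ ¬ O w v) =
          cnt (fun w => ¬ ¬ P w ∧ (R w v ∧ ¬ (¬ P w ∧ P v)) ∧
            ¬ (P w ∧ (P v ∨ (¬ P v ∧ O w v)))) :=
        cnt_congr fun w => by tauto
      have h6 : cnt (fun w => R w v ∧ ¬ P w) =
          cnt (fun w => ¬ P w ∧ (R w v ∧ ¬ (¬ P w ∧ P v)) ∧
            ¬ (P w ∧ (P v ∨ (¬ P v ∧ O w v)))) :=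
        cnt_congr fun w => by tauto
      have h7 : ¬ (ind R v ≤ outd R v) := hv
      have h8 : ind R v = cnt (fun w => R w v) := rfl
      omega

theorem dec_equiv {C C' : Type*} (e : C ≃ C') {R : V → V → Prop} (h : Dec C R) : Dec C' R := by
  obtain ⟨c, hc⟩ := h
  refine ⟨fun u v => e (c u v), fun i => ?_⟩
  refine irr_congr ?_ (hc (e.symm i))
  intro u v
  rw [Equiv.eq_symm_apply]

/-- all digraphs -/
theorem general (R : V → V → Prop) (hR : ∀ v, ¬ R v v) : Dec (Fin 58) R := by
  have e := Fintype.equivFin V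
  set f : V → ℕ := fun v => (e v : ℕ) with hf
  set f' : V → ℕ := fun v => Fintype.card V - (e v : ℕ) with hf'
  have hff : ∀ u v, f u < f v ↔ f' v < f' u := by
    intro u v
    simp only [hf, hf']
    have := (e u).2
    have := (e v).2
    omega
  have h1 : Dec ((Unit ⊕ (((Bool × Bool × Bool) ⊕ Fin 6) ⊕ ((Bool × Bool × Bool) ⊕ Fin 6))) ⊕
      (Unit ⊕ (((Bool × Bool × Bool) ⊕ Fin 6) ⊕ ((Bool × Bool × Bool) ⊕ Fin 6)))) R := by
    apply dec_union (fun u v => f u < f v)
    · exact acyclic f f' _ (fun u v h => h.2) (fun u v h => (hff u v).1 h.2)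
    · have hgt : ∀ u v, R u v ∧ ¬ f u < f v → f v < f u := by
        rintro u v ⟨h, h'⟩
        have : f u ≠ f v := by
          intro h2
          have : u = v := e.injective (Fin.ext h2)
          rw [this] at h
          exact hR v h
        omega
      exact acyclic f' f _ (fun u v h => (hff v u).1 (hgt u v h)) (fun u v h => hgt u v h)
  refine dec_equiv (Fintype.equivOfCardEq ?_) h1
  simp

end Q258.Slir
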