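import Pool.Agent.Q258.Slir.Basic

namespace Q258.Slir

open Finset Classical

variable {V : Type*} [Fintype V]

/-- the counting inequality behind the choice of the classes -/
theorem class_ineq (f f' : V → ℕ) (G : V → V → Prop) (P : V → Prop)
    (hf : ∀ u v, G u v → f u < f v) (hf' : ∀ u v, G u v → f' v < f' u)
    (hc : ∀ v, P v → cnt (fun u => P u ∧ G u v) ≤
      cnt (fun w => P w ∧ G v w) + 2 * cnt (fun w => ¬ P w ∧ G v w) + 1) :
    ∃ α β : V → Bool, ∀ v, P v → cnt (fun u => G u v ∧ P u ∧ α u = α v ∧ β u = β v) ≤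
      cnt (fun w => G v w ∧ ¬ (P w ∧ α v = α w ∧ β v = β w)) := by
  obtain ⟨α, hα⟩ := exists_minority f (fun u v => P u ∧ G u v) (fun u v h => hf u v h.2)
  obtain ⟨β, hβ⟩ := exists_minority f' (fun u v => P u ∧ G v u) (fun u v h => hf' v u h.2)
  refine ⟨α, β, fun v hv => ?_⟩
  have h1 := hc v hv
  have h2 := hα v
  have h3 := hβ v
  have h4 := cnt_split (fun u => P u ∧ G u v) (fun u => α u = α v)
  have h5 := cnt_split (fun u => P u ∧ G v u) (fun u => β u = β v)
  have h6 : cnt (fun u => G u v ∧ P u ∧ α u = α v ∧ β u = β v) ≤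
      cnt (fun u => (P u ∧ G u v) ∧ α u = α v) := cnt_mono fun u hu => by tauto
  have h7 : cnt (fun w => ((P w ∧ G v w) ∧ ¬ β w = β v) ∨ (¬ P w ∧ G v w)) =
      cnt (fun w => (P w ∧ G v w) ∧ ¬ β w = β v) + cnt (fun w => ¬ P w ∧ G v w) :=
    cnt_or fun w hw hw' => hw'.1 hw.1.1
  have h8 : cnt (fun w => ((P w ∧ G v w) ∧ ¬ β w = β v) ∨ (¬ P w ∧ G v w)) ≤
      cnt (fun w => G v w ∧ ¬ (P w ∧ α v = α w ∧ β v = β w)) := by
    apply cnt_mono
    rintro w (⟨⟨hw1, hw2⟩, hw3⟩ | ⟨hw1, hw2⟩)
    · exact ⟨hw2, fun h => hw3 h.2.2.symm⟩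
    · exact ⟨hw2, fun h => hw1 h.1⟩
  omega

theorem side (f f' : V → ℕ) (G : V → V → Prop) (P : V → Prop)
    (hf : ∀ u v, G u v → f u < f v) (hf' : ∀ u v, G u v → f' v < f' u)
    (hP : ∀ u v, G u v → P u)
    (hc : ∀ v, P v → cnt (fun u => P u ∧ G u v) ≤
      cnt (fun w => P w ∧ G v w) + 2 * cnt (fun w => ¬ P w ∧ G v w) + 1) :
    Dec ((Bool × Bool × Bool) ⊕ Fin 6) G := by
  obtain ⟨α, β, hαβ⟩ := class_ineq f f' G P hf hf' hc
  -- same class
  set Sm : V → V → Prop := fun u v => P u ∧ P v ∧ α u = α v ∧ β u = β v with hSm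
  -- the part
  set h : V → Bool := fun v => decide (cnt (fun u => G u v ∧ Sm u v) ≤
    cnt (fun w => G v w ∧ Sm v w)) with hh
  set K : Bool × Bool × Bool → V → Prop := fun i v => P v ∧ (α v, β v, h v) = i with hK
  set X : V → ℕ := fun v => cnt (fun w => G v w ∧ ¬ (P w ∧ α v = α w ∧ β v = β w)) with hX
  have hKcls : ∀ i u v, K i u → K i v → α u = α v ∧ β u = β v ∧ h u = h v := by
    rintro i u v ⟨_, hu⟩ ⟨_, hv⟩
    have := hu.trans hv.symm
    simp only [Prod.mk.injEq] at this
    exact this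
  have key : ∀ i : Bool × Bool × Bool, ∃ S' : V → V → Prop,
      (∀ u v, S' u v → K i u ∧ G u v ∧ ¬ (P v ∧ α u = α v ∧ β u = β v)) ∧
      Irr (fun u v => (K i u ∧ G u v ∧ (P v ∧ α u = α v ∧ β u = β v) ∧
        (h u = true ∨ h v = false)) ∨ S' u v) := by
    intro i
    -- the adjusting arcs
    have hXo : ∀ v, K i v → outd (fun u v => K i u ∧ G u v ∧
        ¬ (P v ∧ α u = α v ∧ β u = β v)) v = X v := by
      intro v hv
      unfold outd
      apply cnt_congr
      intro w
      constructor
      · rintro ⟨_, h1, h2⟩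
        exact ⟨h1, h2⟩
      · rintro ⟨h1, h2⟩
        exact ⟨hv, h1, h2⟩
    have has : ∀ v, P v → cnt (fun u => G u v ∧ Sm u v) ≤ X v := by
      intro v hv
      refine le_trans (cnt_mono ?_) (hαβ v hv)
      rintro u ⟨h1, h2, _, h3, h4⟩
      exact ⟨h1, h2, h3, h4⟩
    have hin : ∀ v, K i v → cnt (fun u => K i u ∧ K i v ∧ G u v) ≤
        cnt (fun u => G u v ∧ Sm u v) := by
      intro v hv
      apply cnt_mono
      rintro u ⟨h1, h2, h3⟩
      exact ⟨h3, h1.1, h2.1, (hKcls i u v h1 h2).1, (hKcls i u v h1 h2).2.1⟩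
    rcases hi : i.2.2 with _ | _
    · -- the part `L`
      have hL : ∀ v, K i v → h v = false := by
        rintro v ⟨_, hv⟩
        rw [← hv] at hi
        exact hi
      obtain ⟨s, hs⟩ := exists_list f' (fun u v => K i u ∧ K i v ∧ G v u)
        (fun u v h => hf' v u h.2.2)
        (fun v => max 0 ((cnt (fun w => K i v ∧ K i w ∧ G v w) : ℤ) -
          cnt (fun u => K i u ∧ K i v ∧ G u v)))
      have hb : ∀ v, K i v → bal (fun u v => K i u ∧ G u v ∧ (P v ∧ α u = α v ∧ β u = β v) ∧
          (h u = true ∨ h v = false)) v = (cnt (fun w => K i v ∧ K i w ∧ G v w) : ℤ) -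
          cnt (fun u => K i u ∧ K i v ∧ G u v) := by
        intro v hv
        unfold bal outd ind
        congr 2
        · apply cnt_congr
          intro w
          constructor
          · rintro ⟨h1, h2, ⟨h3, h4, h5⟩, h6⟩
            refine ⟨h1, ⟨h3, ?_⟩, h2⟩
            have h7 : h w = false := by
              rcases h6 with h6 | h6
              · rw [hL v hv] at h6
                exact absurd h6 (by decide)
              · exact h6
            rw [← hv.2, h4, h5, h7, hL v hv]
          · rintro ⟨h1, h2, h3⟩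
            exact ⟨h1, h3, ⟨h2.1, (hKcls i v w h1 h2).1, (hKcls i v w h1 h2).2.1⟩,
              Or.inr (hL w h2)⟩
        · apply cnt_congr
          intro w
          constructor
          · rintro ⟨h1, h2, ⟨h3, h4, h5⟩, h6⟩
            exact ⟨h1, hv, h2⟩
          · rintro ⟨h1, h2, h3⟩
            exact ⟨h1, h3, ⟨h2.1, (hKcls i w v h1 h2).1, (hKcls i w v h1 h2).2.1⟩,
              Or.inr (hL v hv)⟩
      obtain ⟨S', hS', hIrr⟩ := adjust (K i)
        (fun u v => K i u ∧ G u v ∧ (P v ∧ α u = α v ∧ β u = β v) ∧ (h u = true ∨ h v = false))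
        (fun u v => K i u ∧ G u v ∧ ¬ (P v ∧ α u = α v ∧ β u = β v))
        (fun u v h => h.1)
        (fun u v hS => ⟨hS.1, fun hv => hS.2.2 ⟨hv.1, (hKcls i u v hS.1 hv).1,
          (hKcls i u v hS.1 hv).2.1⟩⟩)
        (fun u v h1 h2 => h2.2.2 h1.2.2.1) s
        (fun v hv => le_trans (le_max_left _ _) (hs v).1)
        (fun v hv => by rw [hb v hv]; exact le_trans (le_max_right _ _) (hs v).1)
        (by
          intro v hv
          rw [hb v hv, hXo v hv]
          have h1 := (hs v).2.1
          have h2 := hin v hv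
          have h3 := has v hv.1
          have h4 : cnt (fun u => K i u ∧ K i v ∧ G v u) =
            cnt (fun w => K i v ∧ K i w ∧ G v w) := cnt_congr fun u => by tauto
          have h5 : cnt (fun w => K i v ∧ K i w ∧ G v w) ≤ cnt (fun w => G v w ∧ Sm v w) := by
            apply cnt_mono
            rintro w ⟨g1, g2, g3⟩
            exact ⟨g3, g1.1, g2.1, (hKcls i v w g1 g2).1, (hKcls i v w g1 g2).2.1⟩
          have h6 : ¬ (cnt (fun u => G u v ∧ Sm u v) ≤ cnt (fun w => G v w ∧ Sm v w)) := by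
            have := hL v hv
            simp only [hh, decide_eq_false_iff_not] at this
            exact this
          rw [h4] at h1
          omega)
        (by
          intro u v huv hv
          have := (hs u).2.2 v ⟨hv, huv.1, huv.2.1⟩
          exact fun h => this h.symm)
      exact ⟨S', hS', hIrr⟩
    · -- the part `H`
      have hH : ∀ v, K i v → h v = true := by
        rintro v ⟨_, hv⟩
        rw [← hv] at hi
        exact hi
      obtain ⟨s, hs⟩ := exists_list f (fun u v => K i u ∧ K i v ∧ G u v)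
        (fun u v h => hf u v h.2.2)
        (fun v => (cnt (fun w => G v w ∧ Sm v w) : ℤ) -
          cnt (fun u => K i u ∧ K i v ∧ G u v))
      have hb : ∀ v, K i v → bal (fun u v => K i u ∧ G u v ∧ (P v ∧ α u = α v ∧ β u = β v) ∧
          (h u = true ∨ h v = false)) v = (cnt (fun w => G v w ∧ Sm v w) : ℤ) -
          cnt (fun u => K i u ∧ K i v ∧ G u v) := by
        intro v hv
        unfold bal outd ind
        congr 2
        · apply cnt_congr
          intro w
          constructor
          · rintro ⟨h1, h2, ⟨h3, h4, h5⟩, h6⟩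
            exact ⟨h2, h1.1, h3, h4, h5⟩
          · rintro ⟨h1, h2, h3, h4, h5⟩
            exact ⟨hv, h1, ⟨h3, h4, h5⟩, Or.inl (hH v hv)⟩
        · apply cnt_congr
          intro w
          constructor
          · rintro ⟨h1, h2, ⟨h3, h4, h5⟩, h6⟩
            exact ⟨h1, hv, h2⟩
          · rintro ⟨h1, h2, h3⟩
            exact ⟨h1, h3, ⟨h2.1, (hKcls i w v h1 h2).1, (hKcls i w v h1 h2).2.1⟩,
              Or.inl (hH w h1)⟩
      have hab : ∀ v, K i v → cnt (fun u => G u v ∧ Sm u v) ≤ cnt (fun w => G v w ∧ Sm v w) := by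
        intro v hv
        have := hH v hv
        simp only [hh, decide_eq_true_eq] at this
        exact this
      obtain ⟨S', hS', hIrr⟩ := adjust (K i)
        (fun u v => K i u ∧ G u v ∧ (P v ∧ α u = α v ∧ β u = β v) ∧ (h u = true ∨ h v = false))
        (fun u v => K i u ∧ G u v ∧ ¬ (P v ∧ α u = α v ∧ β u = β v))
        (fun u v h => h.1)
        (fun u v hS => ⟨hS.1, fun hv => hS.2.2 ⟨hv.1, (hKcls i u v hS.1 hv).1,
          (hKcls i u v hS.1 hv).2.1⟩⟩)
        (fun u v h1 h2 => h2.2.2 h1.2.2.1) s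
        (by
          intro v hv
          have h1 := (hs v).1
          have h2 := hin v hv
          have h3 := hab v hv
          omega)
        (fun v hv => by rw [hb v hv]; exact (hs v).1)
        (by
          intro v hv
          rw [hb v hv, hXo v hv]
          have h1 := (hs v).2.1
          have h2 := hin v hv
          have h3 := has v hv.1
          omega)
        (by
          intro u v huv hv
          exact (hs v).2.2 u ⟨huv.1, hv, huv.2.1⟩)
      exact ⟨S', hS', hIrr⟩
  choose S' hS' hIrr using key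
  set Q : V → V → Prop := fun u v => (P v ∧ α u = α v ∧ β u = β v) ∧
    (h u = true ∨ h v = false) ∨ S' (α u, β u, h u) u v with hQ
  apply dec_union Q
  · refine ⟨fun u _ => (α u, β u, h u), fun i => ?_⟩
    refine irr_congr ?_ (hIrr i)
    intro u v
    constructor
    · rintro (⟨h1, h2, h3, h4⟩ | h1)
      · exact ⟨⟨h2, Or.inl ⟨h3, h4⟩⟩, h1.2⟩
      · have h2 := hS' i u v h1
        refine ⟨⟨h2.2.1, Or.inr ?_⟩, h2.1.2⟩
        rw [h2.1.2]
        exact h1
    · rintro ⟨⟨h1, (⟨h2, h3⟩ | h2)⟩, h4⟩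
      · exact Or.inl ⟨⟨hP u v h1, h4⟩, h1, h2, h3⟩
      · simp only at h4
        rw [h4] at h2
        exact Or.inr h2
  · apply dec_dicuts (J := Fin 6) ![P, fun v => α v = true, fun v => α v = false,
      fun v => β v = true, fun v => β v = false, fun v => h v = false]
    rintro u v ⟨huv, hQ'⟩
    have hu := hP u v huv
    by_cases hv : P v
    · by_cases hα : α u = α v
      · by_cases hβ : β u = β v
        · have h1 : ¬ (h u = true ∨ h v = false) := fun h' => hQ' (Or.inl ⟨⟨hv, hα, hβ⟩, h'⟩)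
          refine ⟨5, ?_⟩
          have h2 : h u = false := by
            cases h3 : h u
            · rfl
            · exact absurd (Or.inl h3) h1
          have h3 : ¬ h v = false := fun h4 => h1 (Or.inr h4)
          exact ⟨h2, h3⟩
        · cases h1 : β u
          · exact ⟨4, h1, fun h2 : β v = false => hβ (by rw [h1, h2])⟩
          · exact ⟨3, h1, fun h2 : β v = true => hβ (by rw [h1, h2])⟩
      · cases h1 : α u
        · exact ⟨2, h1, fun h2 : α v = false => hα (by rw [h1, h2])⟩
        · exact ⟨1, h1, fun h2 : α v = true => hα (by rw [h1, h2])⟩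
    · exact ⟨0, hu, hv⟩

end Q258.Slir
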